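import Pool.Agent.Q74.BT.Stm4
import Pool.Agent.Q14.BT.NetLaw
import Pool.Agent.Q225.SF.Mark

/-!
# Project BT (helper74), part 4, JOB FamM: multi-time laws for finitely many trajectories
-/

set_option autoImplicit false

namespace Pool.Agent.Q182.BT.FamM

open Finset
open Pool.Agent.Q158.Pair (T)
open Pool.Agent.Q74.AR (oc oc_per bE bE_mono bE_const)
open Pool.Agent.Q74.KP (EE Lv yy NG PP act act_mono NG_close NG_not act_two bE_ball EE_add EE_mul EE_sub EE_sum
  EE_mono EE_abs EE_abs_le EE_bd EE_const EE_nonneg oc_add)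
open Pool.Agent.Q74.SF
open Pool.Agent.Q74.BT
open Pool.Agent.Q14.BT (can can_val can_eq can_iff can_congr can_can hfix)

/-! ### bounds -/

theorem Wt_le {φ : ℕ → ℝ} {h : ℤ → ℝ} (hφ : ∀ x, |φ x| ≤ 1) (hh : ∀ x, |h x| ≤ 1) (A : Finset ℤ) : |Wt φ h A| ≤ 1 := by
  unfold Wt
  rw [abs_mul, Finset.abs_prod]
  have h1 : ∏ x ∈ A, |h x| ≤ 1 := Finset.prod_le_one (fun x _ => abs_nonneg _) (fun x _ => hh x)
  have h2 : 0 ≤ ∏ x ∈ A, |h x| := Finset.prod_nonneg fun x _ => abs_nonneg _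
  calc |φ A.card| * ∏ x ∈ A, |h x| ≤ 1 * 1 := mul_le_mul (hφ _) h1 h2 zero_le_one
    _ = 1 := one_mul 1

theorem mul_le_one' {x y : ℝ} (hx : |x| ≤ 1) (hy : |y| ≤ 1) : |x * y| ≤ 1 := by
  rw [abs_mul]
  calc |x| * |y| ≤ 1 * 1 := mul_le_mul hx hy (abs_nonneg _) zero_le_one
    _ = 1 := one_mul 1

theorem cF_le {F : Finset ℤ → ℝ} (hF : ∀ A, |F A| ≤ 1) (r : ℕ) : ∀ A, |cF F r A| ≤ 1 := by
  induction r with
  | zero => exact hF
  | succ r ih =>
    intro A
    show |(∑ B ∈ A.powerset, cF F r (A \ B ∪ B.image (· + 1))) / 2 ^ A.card| ≤ 1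
    rw [abs_div, abs_of_pos (by positivity : (0 : ℝ) < 2 ^ A.card), div_le_iff₀ (by positivity), one_mul]
    refine (abs_sum_le_sum_abs _ _).trans ((sum_le_sum fun B _ => ih _).trans ?_)
    rw [sum_const, card_powerset, nsmul_eq_mul, mul_one]
    push_cast
    exact le_rfl

theorem Adm_tail {δ Λ : ℝ} {t : ℕ} {e : Ob} {l : List Ob} (h : Adm δ Λ t (e :: l)) : Adm δ Λ t l :=
  fun e' he' => h e' (List.mem_cons_of_mem _ he')

theorem MW_le {δ Λ : ℝ} {t : ℕ} : ∀ (l : List Ob), Adm δ Λ t l → ∀ A, |MW l A| ≤ 1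
  | [], _ => fun A => by simp [MW]
  | e :: l, h => by
    have h1 := h e (by simp)
    have h2 := MW_le l (Adm_tail h)
    exact cF_le (fun A => mul_le_one' (Wt_le h1.2.1 h1.2.2.1 A) (h2 A)) e.1

theorem PW_le {δ Λ : ℝ} {t : ℕ} (S : ℕ → Finset ℤ) : ∀ (l : List Ob) (u : ℕ), Adm δ Λ t l → |PW S u l| ≤ 1
  | [], _, _ => by simp [PW]
  | e :: l, u, h => by
    have h1 := h e (by simp)
    exact mul_le_one' (Wt_le h1.2.1 h1.2.2.1 _) (PW_le S l _ (Adm_tail h))

theorem PW_shift (S : ℕ → Finset ℤ) (s : ℕ) : ∀ (l : List Ob) (u : ℕ), PW S (s + u) l = PW (fun v => S (s + v)) u l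
  | [], u => rfl
  | e :: l, u => by
    show Wt e.2.1 e.2.2 (S (s + u + e.1)) * PW S (s + u + e.1) l =
      Wt e.2.1 e.2.2 (S (s + (u + e.1))) * PW (fun v => S (s + v)) (u + e.1) l
    rw [← PW_shift S s l (u + e.1), add_assoc]

/-! ### the exact splitting -/

theorem Lv_split {k : ℕ} (a : Fin k → ℕ) (b : Fin k → ℤ) (s u : ℕ) (x n : ℤ) :
    Lv a b (s + u) (2 ^ s * n + x) =
      Lv (fun i => a i + oc s (yy a b i x)) (fun i => T^[s] (yy a b i x)) u n := by
  funext i
  have e1 : yy a b i (2 ^ s * n + x) = yy a b i x + 2 ^ s * (3 ^ a i * n) := by unfold yy; ring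
  have e2 : T^[s] (yy a b i (2 ^ s * n + x)) =
      yy (fun i => a i + oc s (yy a b i x)) (fun i => T^[s] (yy a b i x)) i n := by
    rw [e1, Pool.Agent.Q225.SF.T_shift_oc]
    show _ = 3 ^ (a i + oc s (yy a b i x)) * n + T^[s] (yy a b i x)
    rw [pow_add]
    ring
  show (a i : ℤ) + oc (s + u) (yy a b i (2 ^ s * n + x)) = ((a i + oc s (yy a b i x) : ℕ) : ℤ) +
    oc u (yy (fun i => a i + oc s (yy a b i x)) (fun i => T^[s] (yy a b i x)) i n)
  rw [oc_add, e2, e1, oc_per]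
  push_cast
  ring

theorem PW_split {k : ℕ} (a : Fin k → ℕ) (b : Fin k → ℤ) (e : Ob) (l : List Ob) :
    EE (tot (e :: l)) (fun n => PW (fun s => univ.image (Lv a b s n)) 0 (e :: l)) =
    EE e.1 (fun x => Wt e.2.1 e.2.2 (univ.image (Lv a b e.1 x)) *
      EE (tot l) (fun n => PW (fun v => univ.image
        (Lv (fun i => a i + oc e.1 (yy a b i x)) (fun i => T^[e.1] (yy a b i x)) v n)) 0 l)) := by
  have e0 : tot (e :: l) = e.1 + tot l := by simp [tot]
  rw [e0, Pool.Agent.Q74.BL.EE_split]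
  congr 1
  funext x
  rw [← EE_mul]
  congr 1
  funext n
  show Wt e.2.1 e.2.2 (univ.image (Lv a b (0 + e.1) (2 ^ e.1 * n + x))) *
    PW (fun s => univ.image (Lv a b s (2 ^ e.1 * n + x))) (0 + e.1) l = _
  have e1 : Lv a b (0 + e.1) (2 ^ e.1 * n + x) = Lv a b e.1 x := by
    have h1 := Lv_split a b e.1 0 x n
    have h2 := Lv_split a b e.1 0 x 0
    rw [mul_zero, zero_add, add_zero] at h2
    rw [add_zero] at h1
    rw [zero_add, h1, h2]
    funext i
    show ((a i + oc e.1 (yy a b i x) : ℕ) : ℤ) + oc 0 _ = ((a i + oc e.1 (yy a b i x) : ℕ) : ℤ) + oc 0 _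
    rfl
  rw [e1]
  congr 1
  have e2 : 0 + e.1 = e.1 + 0 := by omega
  rw [e2, PW_shift]
  congr 1
  funext v
  rw [Lv_split]

/-! ### collisions of the levels -/

/-- test function for collisions -/
noncomputable def tG (w : ℝ) (z : Fin 2 → ℤ) : ℝ := max 0 (1 - |(z 0 : ℝ) - z 1| / w)

theorem tG_nonneg (w : ℝ) (z : Fin 2 → ℤ) : 0 ≤ tG w z := le_max_left _ _

theorem tG_le {w : ℝ} (hw : 0 < w) (z : Fin 2 → ℤ) : tG w z ≤ 1 := by
  unfold tG
  refine max_le zero_le_one ?_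
  have : 0 ≤ |(z 0 : ℝ) - z 1| / w := by positivity
  linarith

theorem tG_abs {w : ℝ} (hw : 0 < w) (z : Fin 2 → ℤ) : |tG w z| ≤ 1 := by
  rw [abs_of_nonneg (tG_nonneg w z)]
  exact tG_le hw z

theorem tG_lip {w : ℝ} (hw : 0 < w) (z z' : Fin 2 → ℤ) : |tG w z - tG w z'| ≤ 1 / w * ∑ i, |(z i : ℝ) - z' i| := by
  unfold tG
  refine (abs_max_sub_max_le_max 0 (1 - |(z 0 : ℝ) - z 1| / w) 0 (1 - |(z' 0 : ℝ) - z' 1| / w)).trans ?_
  rw [sub_self, abs_zero]
  have h0 : 0 ≤ 1 / w * ∑ i, |(z i : ℝ) - z' i| := mul_nonneg (by positivity) (sum_nonneg fun _ _ => abs_nonneg _)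
  refine max_le h0 ?_
  have e : (1 - |(z 0 : ℝ) - z 1| / w) - (1 - |(z' 0 : ℝ) - z' 1| / w) =
      1 / w * (|(z' 0 : ℝ) - z' 1| - |(z 0 : ℝ) - z 1|) := by ring
  rw [e, abs_mul, abs_of_pos (by positivity : 0 < 1 / w)]
  refine mul_le_mul_of_nonneg_left ?_ (by positivity)
  rw [Fin.sum_univ_two]
  refine (abs_abs_sub_abs_le _ _).trans ?_
  have e2 : ((z' 0 : ℝ) - z' 1) - ((z 0 : ℝ) - z 1) = ((z 1 : ℝ) - z' 1) - ((z 0 : ℝ) - z' 0) := by ring
  rw [e2]
  refine (abs_sub _ _).trans ?_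
  linarith

theorem pat_id {k : ℕ} (z : Fin k → ℤ) (c : ℝ) : pat id z * c = (open Classical in if Function.Injective z then c else 0) := by
  classical
  unfold pat
  by_cases h : Function.Injective z
  · rw [if_pos h, if_pos (fun i j => ⟨fun hij => h hij, fun hij => congrArg z hij⟩), one_mul]
  · rw [if_neg h, if_neg, zero_mul]
    intro hc
    exact h fun i j hij => (hc i j).1 hij

/-- two free walkers are rarely near to each other -/
theorem NG_near {w : ℝ} (hw : 0 < w) (t : ℕ) (c : Fin 2 → ℤ) :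
    NG (tG w) t c ≤ 4 * (w + 1) / √((t : ℝ) + 1) := by
  have h1 := (abs_le.1 (NG_close (tG w) (fun _ => 0) t c)).2
  have h2 : NG (fun _ : Fin 2 → ℤ => (0 : ℝ)) t c = 0 := by
    have h3 := Pool.Agent.Q74.KP.NG_abs (g := fun _ : Fin 2 → ℤ => (0 : ℝ)) (K := 0) (fun _ => by simp) t c
    exact abs_nonpos_iff.1 h3
  rw [h2, sub_zero] at h1
  refine h1.trans ?_
  set R := ⌈w⌉₊ with hR
  have h3 : ∀ z : Fin 2 → ℤ, |tG w z - 0| ≤ (fun d : ℤ => if d.natAbs < R then (1 : ℝ) else 0) (z 1 - z 0) := by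
    intro z
    rw [sub_zero]
    show |tG w z| ≤ if (z 1 - z 0).natAbs < R then (1 : ℝ) else 0
    split_ifs with h
    · exact tG_abs hw z
    · have h4 : w ≤ |(z 0 : ℝ) - z 1| := by
        have h5 : R ≤ (z 1 - z 0).natAbs := by omega
        have h6 : w ≤ R := Nat.le_ceil w
        have h7 : (R : ℝ) ≤ ((z 1 - z 0).natAbs : ℝ) := by exact_mod_cast h5
        have h8 : (((z 1 - z 0).natAbs : ℕ) : ℝ) = |(z 0 : ℝ) - z 1| := by
          rw [Nat.cast_natAbs, Int.cast_abs, abs_sub_comm]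
          push_cast
          rfl
        linarith
      have h9 : tG w z = 0 := by
        unfold tG
        refine max_eq_left ?_
        have : 1 ≤ |(z 0 : ℝ) - z 1| / w := by rw [le_div_iff₀ hw]; linarith
        linarith
      rw [h9, abs_zero]
  refine (act_mono t h3 c).trans ?_
  rw [act_two (show (0 : Fin 2) ≠ 1 by decide) t (fun d : ℤ => if d.natAbs < R then (1 : ℝ) else 0) c]
  have h4 : bE t (fun x => bE t (fun y => if (c 1 + (y : ℤ) - (c 0 + (x : ℤ))).natAbs < R then (1 : ℝ) else 0)) ≤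
      bE t (fun _ => 2 * (R : ℝ) * (2 / √((t : ℝ) + 1))) := by
    refine bE_mono t _ _ fun x => ?_
    have e : ∀ y : ℕ, (c 1 + (y : ℤ) - (c 0 + (x : ℤ))) = (c 1 - c 0 - x) + (y : ℤ) := fun y => by ring
    simp only [e]
    exact bE_ball t R _
  refine h4.trans ?_
  rw [bE_const]
  have h5 : (R : ℝ) ≤ w + 1 := (Nat.ceil_lt_add_one hw.le).le
  have h6 : 0 < √((t : ℝ) + 1) := Real.sqrt_pos.2 (by positivity)
  rw [show 2 * (R : ℝ) * (2 / √((t : ℝ) + 1)) = 4 * R / √((t : ℝ) + 1) by ring]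
  gcongr

/-- the trajectories with different values have different levels, with large probability -/
theorem coll (k : ℕ) (ε : ℝ) (hε : 0 < ε) : ∃ ρ : ℝ, 0 < ρ ∧ ∃ t₀ : ℕ, ∀ t : ℕ, t₀ ≤ t →
    ∀ (a : Fin k → ℕ) (b : Fin k → ℤ), Off ρ t a b →
    EE t (fun x => open Classical in if ∃ i j, Lv a b t x i = Lv a b t x j ∧ Vv a b t x i ≠ Vv a b t x j then 1 else 0) ≤ ε := by
  set K : ℝ := (k : ℝ) ^ 2 + 1 with hK
  have hK0 : 0 < K := by positivity
  set η : ℝ := ε / (12 * K) with hη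
  have hη0 : 0 < η := by positivity
  obtain ⟨ρ, hρ, t₀, ht₀⟩ := hfix 2 (1 / η) (ε / (3 * K)) (by positivity) (by positivity)
  obtain ⟨t₁, ht₁⟩ := exists_nat_ge ((1 / η) ^ 2)
  refine ⟨ρ, hρ, max t₀ (t₁ + 1), fun t ht a b hoff => ?_⟩
  have htt : t₀ ≤ t := (le_max_left _ _).trans ht
  have ht1 : t₁ + 1 ≤ t := (le_max_right _ _).trans ht
  have htpos : (0 : ℝ) < t := by
    have : 0 < t := by omega
    exact_mod_cast this
  have hst : 0 < √(t : ℝ) := Real.sqrt_pos.2 htpos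
  have hst1 : 1 / η ≤ √(t : ℝ) := by
    apply Real.le_sqrt_of_sq_le
    refine ht₁.trans ?_
    exact_mod_cast (by omega : t₁ ≤ t)
  -- one pair
  have hpair : ∀ i j : Fin k, EE t (fun x => open Classical in if Lv a b t x i = Lv a b t x j ∧ Vv a b t x i ≠ Vv a b t x j
      then 1 else 0) ≤ ε / K := by
    intro i j
    set e : Fin 2 → Fin k := ![i, j] with he
    have hoff' : Off ρ t (a ∘ e) (b ∘ e) := ⟨fun p q => hoff.1 (e p) (e q), fun p q h => hoff.2 (e p) (e q) h⟩
    have hw : 0 < η * √t := by positivity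
    have h1 := ht₀ t htt (a ∘ e) (b ∘ e) hoff' id (tG (η * √t)) (fun z => tG_abs hw z) (fun z w => by
      refine (tG_lip hw z w).trans (le_of_eq ?_)
      congr 1
      rw [div_div])
    have h2 : CG (fun z => pat id z * tG (η * √t) z) t (fun i => ((a ∘ e) i : ℤ)) ≤ 4 * (η * √t + 1) / √((t : ℝ) + 1) := by
      have e1 : (fun z : Fin 2 → ℤ => pat id z * tG (η * √t) z) =
          fun z => open Classical in if Function.Injective z then tG (η * √t) z else 0 := by
        funext z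
        exact pat_id z _
      rw [e1, Pool.Agent.Q210.SF.cinj 2 (tG (η * √t)) t]
      exact NG_near hw t _
    have h3 : 4 * (η * √t + 1) / √((t : ℝ) + 1) ≤ 8 * η := by
      have h5 : √(t : ℝ) ≤ √((t : ℝ) + 1) := Real.sqrt_le_sqrt (by linarith)
      rw [div_le_iff₀ (lt_of_lt_of_le hst h5)]
      have h6 : 1 ≤ η * √t := by
        rw [div_le_iff₀ hη0] at hst1
        linarith
      calc 4 * (η * √t + 1) ≤ 4 * (η * √t + η * √t) := by gcongr
        _ = 8 * η * √t := by ring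
        _ ≤ 8 * η * √((t : ℝ) + 1) := by gcongr
    have h4 : EE t (fun x => open Classical in if Lv a b t x i = Lv a b t x j ∧ Vv a b t x i ≠ Vv a b t x j
        then 1 else 0) ≤ EE t (fun n => pat id (Vv (a ∘ e) (b ∘ e) t n) * tG (η * √t) (Lv (a ∘ e) (b ∘ e) t n)) := by
      apply EE_mono
      intro n
      split_ifs with h
      · have h5 : pat id (Vv (a ∘ e) (b ∘ e) t n) = 1 := by
          unfold pat
          rw [if_pos]
          have g0 : Vv (a ∘ e) (b ∘ e) t n 0 = Vv a b t n i := rfl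
          have g1 : Vv (a ∘ e) (b ∘ e) t n 1 = Vv a b t n j := rfl
          intro p q
          fin_cases p <;> fin_cases q
          · simp
          · show Vv (a ∘ e) (b ∘ e) t n 0 = Vv (a ∘ e) (b ∘ e) t n 1 ↔ (0 : Fin 2) = 1
            rw [g0, g1]
            exact ⟨fun hc => absurd hc h.2, fun hc => absurd hc (by decide)⟩
          · show Vv (a ∘ e) (b ∘ e) t n 1 = Vv (a ∘ e) (b ∘ e) t n 0 ↔ (1 : Fin 2) = 0
            rw [g0, g1]
            exact ⟨fun hc => absurd hc.symm h.2, fun hc => absurd hc (by decide)⟩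
          · simp
        have h6 : tG (η * √t) (Lv (a ∘ e) (b ∘ e) t n) = 1 := by
          have g0 : Lv (a ∘ e) (b ∘ e) t n 0 = Lv a b t n i := rfl
          have g1 : Lv (a ∘ e) (b ∘ e) t n 1 = Lv a b t n j := rfl
          unfold tG
          rw [g0, g1, h.1, sub_self, abs_zero, zero_div, sub_zero]
          exact max_eq_right zero_le_one
        rw [h5, h6, mul_one]
      · exact mul_nonneg (pat_nonneg _ _) (tG_nonneg _ _)
    have h7 := (abs_le.1 h1).2
    have h8 : 8 * η = ε / K * (2 / 3) := by rw [hη]; field_simp; ring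
    have h9 : ε / (3 * K) = ε / K * (1 / 3) := by field_simp
    linarith
  -- all pairs
  have hsum : EE t (fun x => open Classical in if ∃ i j, Lv a b t x i = Lv a b t x j ∧ Vv a b t x i ≠ Vv a b t x j then 1 else 0) ≤
      EE t (fun x => ∑ p : Fin k × Fin k, open Classical in if Lv a b t x p.1 = Lv a b t x p.2 ∧ Vv a b t x p.1 ≠ Vv a b t x p.2
      then (1 : ℝ) else 0) := by
    classical
    apply EE_mono
    intro n
    split_ifs with h
    · obtain ⟨i, j, hij⟩ := h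
      have h5 : ∀ p ∈ (univ : Finset (Fin k × Fin k)), (0 : ℝ) ≤
          (if Lv a b t n p.1 = Lv a b t n p.2 ∧ Vv a b t n p.1 ≠ Vv a b t n p.2 then (1 : ℝ) else 0) := by
        intro p _
        split_ifs <;> norm_num
      have h6 := single_le_sum h5 (mem_univ (i, j))
      rw [if_pos hij] at h6
      exact h6
    · exact sum_nonneg fun p _ => by split_ifs <;> norm_num
  refine hsum.trans ?_
  rw [EE_sum]
  refine (sum_le_sum fun p _ => hpair p.1 p.2).trans ?_
  rw [sum_const, card_univ, Fintype.card_prod, Fintype.card_fin, nsmul_eq_mul]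
  push_cast
  rw [mul_div_assoc', div_le_iff₀ hK0, hK]
  nlinarith

/-! ### one observation -/

theorem prod_lip {ι : Type*} [DecidableEq ι] (s : Finset ι) (x y : ι → ℝ) (hx : ∀ i, |x i| ≤ 1) (hy : ∀ i, |y i| ≤ 1) :
    |∏ i ∈ s, x i - ∏ i ∈ s, y i| ≤ ∑ i ∈ s, |x i - y i| := by
  induction s using Finset.induction_on with
  | empty => simp
  | insert j s hj ih =>
    rw [prod_insert hj, prod_insert hj, sum_insert hj]
    have h1 : |∏ i ∈ s, x i| ≤ 1 := by
      rw [Finset.abs_prod]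
      exact Finset.prod_le_one (fun i _ => abs_nonneg _) (fun i _ => hx i)
    have e : x j * ∏ i ∈ s, x i - y j * ∏ i ∈ s, y i =
        (x j - y j) * ∏ i ∈ s, x i + y j * (∏ i ∈ s, x i - ∏ i ∈ s, y i) := by ring
    rw [e]
    refine (abs_add_le _ _).trans ?_
    rw [abs_mul, abs_mul]
    have h2 : |x j - y j| * |∏ i ∈ s, x i| ≤ |x j - y j| * 1 := mul_le_mul_of_nonneg_left h1 (abs_nonneg _)
    have h3 : |y j| * |∏ i ∈ s, x i - ∏ i ∈ s, y i| ≤ 1 * |∏ i ∈ s, x i - ∏ i ∈ s, y i| :=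
      mul_le_mul_of_nonneg_right (hy j) (abs_nonneg _)
    linarith

/-- the test function of a pattern -/
noncomputable def GP {k : ℕ} (φ : ℕ → ℝ) (h : ℤ → ℝ) (l : List Ob) (π : Fin k → Fin k) (z : Fin k → ℤ) : ℝ :=
  φ (univ.image π).card * ((∏ i ∈ univ.image π, h (z i)) * MW l (univ.image (z ∘ π)))

theorem GP_abs {k : ℕ} {φ : ℕ → ℝ} {h : ℤ → ℝ} {l : List Ob} {δ Λ : ℝ} {t : ℕ} (hφ : ∀ x, |φ x| ≤ 1)
    (hh : ∀ x, |h x| ≤ 1) (hl : Adm δ Λ t l) (π : Fin k → Fin k) (z : Fin k → ℤ) : |GP φ h l π z| ≤ 1 := by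
  unfold GP
  refine mul_le_one' (hφ _) (mul_le_one' ?_ (MW_le l hl _))
  rw [Finset.abs_prod]
  exact Finset.prod_le_one (fun i _ => abs_nonneg _) (fun i _ => hh _)

/-- the expectations of later observations are Lipschitz -/
theorem MW_lip {k : ℕ} {C : ℝ} (hC : 0 < C)
    (h1 : ∀ F : Finset ℤ → ℝ, (∀ A, |F A| ≤ 1) → ∀ (r : ℕ) (a b : Fin k → ℤ),
      |cF F r (univ.image a) - cF F r (univ.image b)| ≤ C / √((r : ℝ) + 1) * ∑ i, |(a i : ℝ) - b i|)
    {δ Λ : ℝ} (hδ : 0 < δ) {t : ℕ} (ht : 0 < t) (l : List Ob) (hl : Adm δ Λ t l) (a b : Fin k → ℤ) :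
    |MW l (univ.image a) - MW l (univ.image b)| ≤ C / √δ / √t * ∑ i, |(a i : ℝ) - b i| := by
  have hs : 0 ≤ ∑ i, |(a i : ℝ) - b i| := sum_nonneg fun _ _ => abs_nonneg _
  have ht' : (0 : ℝ) < t := by exact_mod_cast ht
  cases l with
  | nil =>
    simp only [MW, sub_self, abs_zero]
    positivity
  | cons e l =>
    have he := hl e (by simp)
    have h2 := MW_le l (Adm_tail hl)
    have h3 := h1 (fun A => Wt e.2.1 e.2.2 A * MW l A) (fun A => mul_le_one' (Wt_le he.2.1 he.2.2.1 A) (h2 A)) e.1 a b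
    refine h3.trans ?_
    refine mul_le_mul_of_nonneg_right ?_ hs
    rw [div_div, ← Real.sqrt_mul hδ.le]
    have h4 : √(δ * t) ≤ √((e.1 : ℝ) + 1) := Real.sqrt_le_sqrt (by linarith [he.1])
    have h5 : 0 < √(δ * t) := Real.sqrt_pos.2 (by positivity)
    gcongr

theorem GP_lip {k : ℕ} {C : ℝ} (hC : 0 < C)
    (h1 : ∀ F : Finset ℤ → ℝ, (∀ A, |F A| ≤ 1) → ∀ (r : ℕ) (a b : Fin k → ℤ),
      |cF F r (univ.image a) - cF F r (univ.image b)| ≤ C / √((r : ℝ) + 1) * ∑ i, |(a i : ℝ) - b i|)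
    {δ Λ : ℝ} (hδ : 0 < δ) (hΛ : 0 ≤ Λ) {t : ℕ} (ht : 0 < t) {φ : ℕ → ℝ} {h : ℤ → ℝ} (hφ : ∀ x, |φ x| ≤ 1)
    (hh : ∀ x, |h x| ≤ 1) (hhl : ∀ x y, |h x - h y| ≤ Λ / √t * |(x : ℝ) - y|) (l : List Ob) (hl : Adm δ Λ t l)
    (π : Fin k → Fin k) (z w : Fin k → ℤ) :
    |GP φ h l π z - GP φ h l π w| ≤ (Λ + k * (C / √δ)) / √t * ∑ i, |(z i : ℝ) - w i| := by
  unfold GP
  rw [← mul_sub, abs_mul]
  refine (mul_le_of_le_one_left (abs_nonneg _) (hφ _)).trans ?_
  set P := ∏ i ∈ univ.image π, h (z i) with hP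
  set Q := ∏ i ∈ univ.image π, h (w i) with hQ
  set M := MW l (univ.image (z ∘ π)) with hM
  set N := MW l (univ.image (w ∘ π)) with hN
  have hM1 : |M| ≤ 1 := MW_le l hl _
  have hQ1 : |Q| ≤ 1 := by
    rw [hQ, Finset.abs_prod]
    exact Finset.prod_le_one (fun i _ => abs_nonneg _) (fun i _ => hh _)
  have hPQ : |P - Q| ≤ Λ / √t * ∑ i, |(z i : ℝ) - w i| := by
    refine (prod_lip (univ.image π) (fun i => h (z i)) (fun i => h (w i)) (fun i => hh _) (fun i => hh _)).trans ?_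
    refine (sum_le_univ_sum_of_nonneg fun i => abs_nonneg _).trans ?_
    rw [mul_sum]
    exact sum_le_sum fun i _ => hhl _ _
  have hMN : |M - N| ≤ k * (C / √δ) / √t * ∑ i, |(z i : ℝ) - w i| := by
    refine (MW_lip hC h1 hδ ht l hl (z ∘ π) (w ∘ π)).trans ?_
    have h2 : ∑ i, |((z ∘ π) i : ℝ) - (w ∘ π) i| ≤ k * ∑ i, |(z i : ℝ) - w i| := by
      have h3 : ∀ i ∈ (univ : Finset (Fin k)), |((z ∘ π) i : ℝ) - (w ∘ π) i| ≤ ∑ j, |(z j : ℝ) - w j| := by
        intro i _
        exact single_le_sum (f := fun j => |(z j : ℝ) - w j|) (fun j _ => abs_nonneg _) (mem_univ (π i))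
      refine (sum_le_sum h3).trans ?_
      rw [sum_const, card_univ, Fintype.card_fin, nsmul_eq_mul]
    refine (mul_le_mul_of_nonneg_left h2 (by positivity)).trans (le_of_eq ?_)
    ring
  have e : P * M - Q * N = (P - Q) * M + Q * (M - N) := by ring
  rw [e]
  refine (abs_add_le _ _).trans ?_
  rw [abs_mul, abs_mul]
  have h4 : |P - Q| * |M| ≤ |P - Q| * 1 := mul_le_mul_of_nonneg_left hM1 (abs_nonneg _)
  have h5 : |Q| * |M - N| ≤ 1 * |M - N| := mul_le_mul_of_nonneg_right hQ1 (abs_nonneg _)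
  have h6 : (Λ + k * (C / √δ)) / √t * ∑ i, |(z i : ℝ) - w i| =
      Λ / √t * ∑ i, |(z i : ℝ) - w i| + k * (C / √δ) / √t * ∑ i, |(z i : ℝ) - w i| := by ring
  rw [h6]
  linarith

/-- for a configuration with the canonical pattern `π` the test function is the observation -/
theorem GP_val {k : ℕ} (φ : ℕ → ℝ) (h : ℤ → ℝ) (l : List Ob) (π : Fin k → Fin k) (hπ : can π = π) (z : Fin k → ℤ)
    (hz : ∀ i j, z i = z j ↔ π i = π j) : GP φ h l π z = Wt φ h (univ.image z) * MW l (univ.image z) := by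
  have h1 : ∀ i, π (π i) = π i := by
    intro i
    have := can_val π i
    rwa [hπ] at this
  have h2 : ∀ i, z (π i) = z i := fun i => (hz (π i) i).2 (h1 i)
  have h3 : z ∘ π = z := funext h2
  have h4 : univ.image z = (univ.image π).image z := by
    rw [image_image, h3]
  have h5 : Set.InjOn z (univ.image π : Finset (Fin k)) := by
    intro x hx y hy hxy
    rw [mem_coe, mem_image] at hx hy
    obtain ⟨i, -, rfl⟩ := hx
    obtain ⟨j, -, rfl⟩ := hy
    have := (hz _ _).1 hxy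
    rwa [h1, h1] at this
  unfold GP Wt
  rw [h3, h4, card_image_of_injOn h5, prod_image h5]
  ring

theorem GP_sum {k : ℕ} {α : Type} (φ : ℕ → ℝ) (h : ℤ → ℝ) (l : List Ob) (v : Fin k → α) (z : Fin k → ℤ) :
    ∑ π : Fin k → Fin k, (open Classical in if can π = π then (1 : ℝ) else 0) * (pat π v * GP φ h l π z) =
      GP φ h l (can v) z := by
  classical
  rw [sum_eq_single (can v)]
  · rw [if_pos (can_can v)]
    have h1 : pat (can v) v = 1 := by
      unfold pat
      rw [if_pos]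
      intro i j
      exact (can_iff v i j).symm
    rw [h1, one_mul, one_mul]
  · intro π _ hπ
    split_ifs with h
    · have h1 : pat π v = 0 := by
        unfold pat
        rw [if_neg]
        intro hc
        refine hπ ?_
        rw [← h]
        exact (can_congr v π hc).symm
      rw [h1, zero_mul, mul_zero]
    · rw [zero_mul]
  · intro h
    exact absurd (mem_univ _) h

theorem GP_can {k : ℕ} {α : Type} (φ : ℕ → ℝ) (h : ℤ → ℝ) (l : List Ob) (v : Fin k → α) (z : Fin k → ℤ)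
    (hv : ∀ i j, v i = v j ↔ z i = z j) : GP φ h l (can v) z = Wt φ h (univ.image z) * MW l (univ.image z) := by
  apply GP_val
  · exact can_can v
  · intro i j
    rw [← hv i j]
    exact (can_iff v i j).symm

theorem Off_scale {k : ℕ} {ρ δ : ℝ} (hρ : 0 < ρ) (hδ : 0 < δ) {t s : ℕ} (hs1 : 1 ≤ s) (hst : s ≤ t) (hs : δ * t ≤ s)
    {a : Fin k → ℕ} {b : Fin k → ℤ} (h : Off (ρ * δ) t a b) : Off ρ s a b := by
  have hs0 : (1 : ℝ) ≤ s := by exact_mod_cast hs1
  have hst' : (s : ℝ) ≤ t := by exact_mod_cast hst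
  have h0 : ρ * δ * t ≤ ρ * s := by
    rw [mul_assoc]
    exact mul_le_mul_of_nonneg_left hs hρ.le
  constructor
  · intro i j
    have h1 := h.1 i j
    have h2 : 0 ≤ Real.log s := Real.log_nonneg hs0
    have h3 : Real.log s ≤ Real.log t := Real.log_le_log (by linarith) hst'
    rcases le_total ((a j : ℝ) - a i) 0 with h4 | h4
    · have h5 : ((a j : ℝ) - a i) * Real.log s ≤ 0 := mul_nonpos_of_nonpos_of_nonneg h4 h2
      have h6 : 0 ≤ ρ * s := by positivity
      linarith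
    · have h5 : ((a j : ℝ) - a i) * Real.log s ≤ ((a j : ℝ) - a i) * Real.log t := mul_le_mul_of_nonneg_left h3 h4
      linarith
  · intro i j hij
    refine (h.2 i j hij).trans ?_
    refine mul_le_mul_of_nonneg_left ?_ (by positivity)
    exact Real.exp_le_exp.2 h0

theorem Off_mono {k : ℕ} {ρ ρ' : ℝ} (hρ : ρ ≤ ρ') {t : ℕ} {a : Fin k → ℕ} {b : Fin k → ℤ} (h : Off ρ t a b) :
    Off ρ' t a b := by
  have h0 : ρ * t ≤ ρ' * t := mul_le_mul_of_nonneg_right hρ (Nat.cast_nonneg t)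
  constructor
  · intro i j
    exact (h.1 i j).trans h0
  · intro i j hij
    refine (h.2 i j hij).trans ?_
    refine mul_le_mul_of_nonneg_left ?_ (by positivity)
    exact Real.exp_le_exp.2 h0

/-- the law at one time, with the functions of the later observations -/
theorem one_time (h1 : S_LipF) (k : ℕ) (δ Λ ε : ℝ) (hδ : 0 < δ) (hΛ : 0 ≤ Λ) (hε : 0 < ε) :
    ∃ ρ : ℝ, 0 < ρ ∧ ∃ t₀ : ℕ, ∀ t : ℕ, t₀ ≤ t → ∀ s : ℕ, δ * t ≤ s → s ≤ t → ∀ (φ : ℕ → ℝ) (h : ℤ → ℝ),
    (∀ x, |φ x| ≤ 1) → (∀ x, |h x| ≤ 1) → (∀ x y, |h x - h y| ≤ Λ / √t * |(x : ℝ) - y|) →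
    ∀ l : List Ob, Adm δ Λ t l → ∀ (a : Fin k → ℕ) (b : Fin k → ℤ), Off ρ t a b →
    |EE s (fun x => Wt φ h (univ.image (Lv a b s x)) * MW l (univ.image (Lv a b s x))) -
      cF (fun A => Wt φ h A * MW l A) s (univ.image fun i => (a i : ℤ))| ≤ ε := by
  obtain ⟨C, hC, hlip⟩ := h1 k
  set P : ℝ := (k : ℝ) ^ k + 1 with hP
  have hP0 : 0 < P := by positivity
  obtain ⟨ρ₁, hρ₁, t₁, ht₁⟩ := hfix k (Λ + k * (C / √δ)) (ε / (2 * P)) (by positivity) (by positivity)
  obtain ⟨ρ₂, hρ₂, t₂, ht₂⟩ := coll k (ε / 4) (by positivity)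
  obtain ⟨t₃, ht₃⟩ := exists_nat_ge (((max t₁ t₂ : ℕ) + 1 : ℝ) / δ)
  refine ⟨min ρ₁ ρ₂ * δ, by positivity, t₃ + 1, fun t ht s hs hst φ h hφ hh hhl l hl a b hoff => ?_⟩
  have htpos : 0 < t := by omega
  have htpos' : (0 : ℝ) < t := by exact_mod_cast htpos
  have hs1 : max t₁ t₂ + 1 ≤ s := by
    have h2 : (((max t₁ t₂ : ℕ) + 1 : ℝ)) ≤ s := by
      rw [div_le_iff₀ hδ] at ht₃
      have h3 : (t₃ : ℝ) * δ ≤ t * δ := by
        refine mul_le_mul_of_nonneg_right ?_ hδ.le
        exact_mod_cast (by omega : t₃ ≤ t)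
      linarith
    exact_mod_cast h2
  have hs2 : 1 ≤ s := by omega
  have hst1 : t₁ ≤ s := by
    have := le_max_left t₁ t₂
    omega
  have hst2 : t₂ ≤ s := by
    have := le_max_right t₁ t₂
    omega
  have hoffs : Off (min ρ₁ ρ₂) s a b := Off_scale (lt_min hρ₁ hρ₂) hδ hs2 hst hs hoff
  have ho1 : Off ρ₁ s a b := Off_mono (min_le_left _ _) hoffs
  have ho2 : Off ρ₂ s a b := Off_mono (min_le_right _ _) hoffs
  have hspos : (0 : ℝ) < s := by exact_mod_cast (by omega : 0 < s)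
  have hsq : √(s : ℝ) ≤ √(t : ℝ) := Real.sqrt_le_sqrt (by exact_mod_cast hst)
  have hsq0 : 0 < √(s : ℝ) := Real.sqrt_pos.2 hspos
  set c : (Fin k → Fin k) → ℝ := fun π => open Classical in if can π = π then (1 : ℝ) else 0 with hc
  have hc1 : ∀ π, |c π| ≤ 1 := by
    intro π
    simp only [hc]
    split_ifs <;> norm_num
  -- patterns
  have hfixπ : ∀ π : Fin k → Fin k, |EE s (fun n => pat π (Vv a b s n) * GP φ h l π (Lv a b s n)) -
      CG (fun z => pat π z * GP φ h l π z) s (fun i => (a i : ℤ))| ≤ ε / (2 * P) := by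
    intro π
    refine ht₁ s hst1 a b ho1 π (GP φ h l π) (fun z => GP_abs hφ hh hl π z) (fun z w => ?_)
    refine (GP_lip hC hlip hδ hΛ htpos hφ hh hhl l hl π z w).trans ?_
    refine mul_le_mul_of_nonneg_right ?_ (sum_nonneg fun _ _ => abs_nonneg _)
    exact div_le_div_of_nonneg_left (by positivity) hsq0 hsq
  -- the walkers
  have hCG : cF (fun A => Wt φ h A * MW l A) s (univ.image fun i => (a i : ℤ)) =
      ∑ π : Fin k → Fin k, c π * CG (fun z => pat π z * GP φ h l π z) s (fun i => (a i : ℤ)) := by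
    rw [← CG_cF]
    have e1 : (fun z : Fin k → ℤ => (fun A => Wt φ h A * MW l A) (univ.image z)) =
        fun z => ∑ π : Fin k → Fin k, c π * (pat π z * GP φ h l π z) := by
      funext z
      rw [GP_sum φ h l z z]
      exact (GP_can φ h l z z (fun i j => Iff.rfl)).symm
    rw [e1, CG_sum]
    exact sum_congr rfl fun π _ => CG_mul _ _ _ _
  -- the trajectories
  have hEE : |EE s (fun x => Wt φ h (univ.image (Lv a b s x)) * MW l (univ.image (Lv a b s x))) -
      ∑ π : Fin k → Fin k, c π * EE s (fun n => pat π (Vv a b s n) * GP φ h l π (Lv a b s n))| ≤ ε / 2 := by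
    have e1 : ∑ π : Fin k → Fin k, c π * EE s (fun n => pat π (Vv a b s n) * GP φ h l π (Lv a b s n)) =
        EE s (fun n => GP φ h l (can (Vv a b s n)) (Lv a b s n)) := by
      have e2 : (fun n => GP φ h l (can (Vv a b s n)) (Lv a b s n)) =
          fun n => ∑ π : Fin k → Fin k, c π * (pat π (Vv a b s n) * GP φ h l π (Lv a b s n)) := by
        funext n
        exact (GP_sum φ h l (Vv a b s n) (Lv a b s n)).symm
      rw [e2, EE_sum]
      exact sum_congr rfl fun π _ => (EE_mul _ _ _).symm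
    rw [e1, ← EE_sub]
    have h3 : ∀ n : ℤ, |Wt φ h (univ.image (Lv a b s n)) * MW l (univ.image (Lv a b s n)) -
        GP φ h l (can (Vv a b s n)) (Lv a b s n)| ≤
        2 * (open Classical in if ∃ i j, Lv a b s n i = Lv a b s n j ∧ Vv a b s n i ≠ Vv a b s n j then (1 : ℝ) else 0) := by
      intro n
      split_ifs with hx
      · refine (abs_sub _ _).trans ?_
        have h4 := mul_le_one' (Wt_le hφ hh (univ.image (Lv a b s n))) (MW_le l hl (univ.image (Lv a b s n)))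
        have h5 := GP_abs hφ hh hl (can (Vv a b s n)) (Lv a b s n)
        linarith
      · rw [GP_can φ h l (Vv a b s n) (Lv a b s n), sub_self, abs_zero, mul_zero]
        intro i j
        constructor
        · intro hv
          have := congrArg Prod.fst hv
          exact this
        · intro hz
          by_contra hv
          exact hx ⟨i, j, hz, hv⟩
    refine (EE_abs_le s h3).trans ?_
    rw [EE_mul]
    have h4 := ht₂ s hst2 a b ho2
    linarith
  rw [hCG]
  have e3 : EE s (fun x => Wt φ h (univ.image (Lv a b s x)) * MW l (univ.image (Lv a b s x))) -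
      ∑ π : Fin k → Fin k, c π * CG (fun z => pat π z * GP φ h l π z) s (fun i => (a i : ℤ)) =
      (EE s (fun x => Wt φ h (univ.image (Lv a b s x)) * MW l (univ.image (Lv a b s x))) -
      ∑ π : Fin k → Fin k, c π * EE s (fun n => pat π (Vv a b s n) * GP φ h l π (Lv a b s n))) +
      ∑ π : Fin k → Fin k, c π * (EE s (fun n => pat π (Vv a b s n) * GP φ h l π (Lv a b s n)) -
        CG (fun z => pat π z * GP φ h l π z) s (fun i => (a i : ℤ))) := by
    simp only [mul_sub, sum_sub_distrib]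
    ring
  rw [e3]
  refine (abs_add_le _ _).trans ?_
  have h5 : |∑ π : Fin k → Fin k, c π * (EE s (fun n => pat π (Vv a b s n) * GP φ h l π (Lv a b s n)) -
        CG (fun z => pat π z * GP φ h l π z) s (fun i => (a i : ℤ)))| ≤ (k : ℝ) ^ k * (ε / (2 * P)) := by
    refine (abs_sum_le_sum_abs _ _).trans ?_
    have h6 : ∀ π ∈ (univ : Finset (Fin k → Fin k)), |c π * (EE s (fun n => pat π (Vv a b s n) * GP φ h l π (Lv a b s n)) -
        CG (fun z => pat π z * GP φ h l π z) s (fun i => (a i : ℤ)))| ≤ ε / (2 * P) := by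
      intro π _
      rw [abs_mul]
      exact (mul_le_of_le_one_left (abs_nonneg _) (hc1 π)).trans (hfixπ π)
    refine (sum_le_sum h6).trans ?_
    rw [sum_const, card_univ, Fintype.card_fun, Fintype.card_fin, nsmul_eq_mul]
    push_cast
    exact le_rfl
  have h7 : (k : ℝ) ^ k * (ε / (2 * P)) ≤ ε / 2 := by
    rw [mul_div_assoc', div_le_div_iff₀ (by positivity) (by positivity), hP]
    have : 0 ≤ (k : ℝ) ^ k := by positivity
    nlinarith
  linarith

/-! ### the induction -/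

theorem famM (h1 : S_LipF) (h2 : S_OffStep) : S_FamM := by
  intro k m
  induction m with
  | zero =>
    intro δ Λ ε hδ hΛ hε
    refine ⟨1, one_pos, 0, fun t _ l hlen _ _ a b _ => ?_⟩
    have hl : l = [] := List.length_eq_zero_iff.1 (by omega)
    subst hl
    have e : EE (tot []) (fun n => PW (fun s => univ.image (Lv a b s n)) 0 []) = 1 := by
      show EE (tot []) (fun _ => (1 : ℝ)) = 1
      exact EE_const _ _
    rw [e]
    show |(1 : ℝ) - 1| ≤ ε
    rw [sub_self, abs_zero]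
    exact hε.le
  | succ m ih =>
    intro δ Λ ε hδ hΛ hε
    obtain ⟨ρ₁, hρ₁, t₁, ht₁⟩ := ih δ Λ (ε / 4) hδ hΛ (by positivity)
    obtain ⟨ρ₂, hρ₂, t₂, ht₂⟩ := h2 k δ ρ₁ (ε / 8) hδ hρ₁ (by positivity)
    obtain ⟨ρ₃, hρ₃, t₃, ht₃⟩ := one_time h1 k δ Λ (ε / 4) hδ hΛ (by positivity)
    refine ⟨min ρ₂ ρ₃, lt_min hρ₂ hρ₃, max (max t₁ t₂) t₃, fun t ht l hlen hl htot a b hoff => ?_⟩
    have hta : t₁ ≤ t := (le_max_left _ _).trans ((le_max_left _ _).trans ht)
    have htb : t₂ ≤ t := (le_max_right _ _).trans ((le_max_left _ _).trans ht)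
    have htc : t₃ ≤ t := (le_max_right _ _).trans ht
    have ho2 : Off ρ₂ t a b := Off_mono (min_le_left _ _) hoff
    have ho3 : Off ρ₃ t a b := Off_mono (min_le_right _ _) hoff
    cases l with
    | nil =>
      have e : EE (tot []) (fun n => PW (fun s => univ.image (Lv a b s n)) 0 []) = 1 := by
        show EE (tot []) (fun _ => (1 : ℝ)) = 1
        exact EE_const _ _
      rw [e]
      show |(1 : ℝ) - 1| ≤ ε
      rw [sub_self, abs_zero]
      exact hε.le
    | cons e l =>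
      have he := hl e (by simp)
      have hl' := Adm_tail hl
      have e0 : tot (e :: l) = e.1 + tot l := by simp [tot]
      have hse : e.1 ≤ t := by omega
      have htl : tot l ≤ t := by omega
      have hlen' : l.length ≤ m := by
        rw [List.length_cons] at hlen
        omega
      have hδt : δ * t ≤ t := he.1.trans (by exact_mod_cast hse)
      rw [PW_split]
      -- the inner average
      have hbad := ht₂ t htb e.1 t he.1 hse hδt le_rfl a b ho2
      have hin : ∀ x : ℤ, |Wt e.2.1 e.2.2 (univ.image (Lv a b e.1 x)) *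
          EE (tot l) (fun n => PW (fun v => univ.image
            (Lv (fun i => a i + oc e.1 (yy a b i x)) (fun i => T^[e.1] (yy a b i x)) v n)) 0 l) -
          Wt e.2.1 e.2.2 (univ.image (Lv a b e.1 x)) * MW l (univ.image (Lv a b e.1 x))| ≤
          ε / 4 + 2 * Set.indicator {x : ℤ | ¬ Off ρ₁ t (fun i => a i + oc e.1 (3 ^ a i * x + b i))
            (fun i => T^[e.1] (3 ^ a i * x + b i))} 1 x := by
        intro x
        rw [← mul_sub, abs_mul]
        refine (mul_le_of_le_one_left (abs_nonneg _) (Wt_le he.2.1 he.2.2.1 _)).trans ?_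
        by_cases hx : Off ρ₁ t (fun i => a i + oc e.1 (3 ^ a i * x + b i)) (fun i => T^[e.1] (3 ^ a i * x + b i))
        · rw [Set.indicator_of_notMem (by simpa using hx), mul_zero, add_zero]
          have h3 := ht₁ t hta l hlen' hl' htl _ _ hx
          have e4 : Lv a b e.1 x = fun i => ((a i + oc e.1 (3 ^ a i * x + b i) : ℕ) : ℤ) := by
            funext i
            show (a i : ℤ) + oc e.1 (3 ^ a i * x + b i) = _
            push_cast
            ring
          rw [e4]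
          exact h3
        · rw [Set.indicator_of_mem (by simpa using hx)]
          have h3 : |EE (tot l) (fun n => PW (fun v => univ.image
            (Lv (fun i => a i + oc e.1 (yy a b i x)) (fun i => T^[e.1] (yy a b i x)) v n)) 0 l)| ≤ 1 :=
            EE_bd _ fun n => PW_le _ l 0 hl'
          have h4 := MW_le l hl' (univ.image (Lv a b e.1 x))
          refine (abs_sub _ _).trans ?_
          simp only [Pi.one_apply]
          linarith
      have hone := ht₃ t htc e.1 he.1 hse e.2.1 e.2.2 he.2.1 he.2.2.1 he.2.2.2 l hl' a b ho3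
      have h5 := EE_abs_le e.1 hin
      rw [EE_sub, EE_add e.1 (fun _ => ε / 4), EE_const, EE_mul] at h5
      show |_ - cF (fun A => Wt e.2.1 e.2.2 A * MW l A) e.1 (univ.image fun i => (a i : ℤ))| ≤ ε
      have h6 := abs_sub_le (EE e.1 (fun x => Wt e.2.1 e.2.2 (univ.image (Lv a b e.1 x)) *
          EE (tot l) (fun n => PW (fun v => univ.image
            (Lv (fun i => a i + oc e.1 (yy a b i x)) (fun i => T^[e.1] (yy a b i x)) v n)) 0 l)))
          (EE e.1 (fun x => Wt e.2.1 e.2.2 (univ.image (Lv a b e.1 x)) * MW l (univ.image (Lv a b e.1 x))))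
          (cF (fun A => Wt e.2.1 e.2.2 A * MW l A) e.1 (univ.image fun i => (a i : ℤ)))
      linarith

end Pool.Agent.Q182.BT.FamM
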