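import Pool.Agent.Q74.BT.Stm

/-!
# Project BT (helper74), job Walk: dyadic chaining
-/

set_option autoImplicit false

namespace Pool.Agent.Q182.BT

open Finset
open Pool.Agent.Q158.Pair (T)
open Pool.Agent.Q74.AR (oc bE bE_succ bE_mono bE_add bE_mul bE_const oc_per)
open Pool.Agent.Q74.KP (EE EE_mono EE_add EE_mul EE_const EE_sum EE_nonneg oc_add)
open Pool.Agent.Q74.BL (nx EE_split T_add EE_oc)
open Pool.Agent.Q74.BT

theorem bE_exp (v : ℕ) (σ : ℝ) :
    bE v (fun k => Real.exp (σ * k)) = ((1 + Real.exp σ) / 2) ^ v := by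
  induction v with
  | zero => show Real.exp (σ * ((0 : ℕ) : ℝ)) = _; simp
  | succ v ih =>
    rw [bE_succ]
    have h : (fun k : ℕ => Real.exp (σ * ((k + 1 : ℕ) : ℝ))) = fun k : ℕ => Real.exp σ * Real.exp (σ * (k : ℝ)) := by
      funext k
      rw [← Real.exp_add]
      push_cast
      ring_nf
    rw [h, bE_mul, ih, pow_succ]
    ring

theorem half_exp (v : ℕ) (σ : ℝ) :
    Real.exp (-(σ * v / 2)) * ((1 + Real.exp σ) / 2) ^ v ≤ Real.exp (σ ^ 2 * v / 8) := by
  have h1 : (1 + Real.exp σ) / 2 = Real.exp (σ / 2) * Real.cosh (σ / 2) := by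
    rw [Real.cosh_eq]
    have : Real.exp (σ / 2) * ((Real.exp (σ / 2) + Real.exp (-(σ / 2))) / 2) =
        (Real.exp (σ / 2) * Real.exp (σ / 2) + Real.exp (σ / 2) * Real.exp (-(σ / 2))) / 2 := by ring
    rw [this, ← Real.exp_add, ← Real.exp_add]
    rw [show σ / 2 + σ / 2 = σ by ring, show σ / 2 + -(σ / 2) = 0 by ring, Real.exp_zero]
    ring
  rw [h1, mul_pow, ← Real.exp_nat_mul, ← mul_assoc, ← Real.exp_add]
  rw [show -(σ * v / 2) + v * (σ / 2) = 0 by ring, Real.exp_zero, one_mul]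
  have h2 : Real.cosh (σ / 2) ≤ Real.exp ((σ / 2) ^ 2 / 2) := Real.cosh_le_exp_half_sq _
  have h3 : Real.cosh (σ / 2) ^ v ≤ Real.exp ((σ / 2) ^ 2 / 2) ^ v :=
    pow_le_pow_left₀ (Real.cosh_pos _).le h2 v
  refine h3.trans (le_of_eq ?_)
  rw [← Real.exp_nat_mul]
  congr 1
  ring

/-- Hoeffding's inequality for fair coins -/
theorem tail (v : ℕ) (σ h : ℝ) (hσ : 0 ≤ σ) :
    bE v (fun k => if h < |(k : ℝ) - (v : ℝ) / 2| then (1 : ℝ) else 0) ≤
      2 * Real.exp (σ ^ 2 * v / 8 - σ * h) := by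
  have h1 : ∀ k : ℕ, (if h < |(k : ℝ) - (v : ℝ) / 2| then (1 : ℝ) else 0) ≤
      Real.exp (-(σ * v / 2) - σ * h) * Real.exp (σ * k) +
        Real.exp (-(-σ * v / 2) - σ * h) * Real.exp (-σ * k) := by
    intro k
    rw [← Real.exp_add, ← Real.exp_add]
    split_ifs with hk
    · rcases lt_abs.mp hk with h2 | h2
      · have h3 : 0 ≤ -(σ * v / 2) - σ * h + σ * k := by nlinarith
        have h4 := Real.one_le_exp h3
        have h5 := Real.exp_pos (-(-σ * v / 2) - σ * h + -σ * k)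
        linarith
      · have h3 : 0 ≤ -(-σ * v / 2) - σ * h + -σ * k := by nlinarith
        have h4 := Real.one_le_exp h3
        have h5 := Real.exp_pos (-(σ * v / 2) - σ * h + σ * k)
        linarith
    · positivity
  refine (bE_mono v _ _ h1).trans ?_
  rw [bE_add v (fun k => Real.exp (-(σ * v / 2) - σ * h) * Real.exp (σ * k)), bE_mul, bE_mul, bE_exp, bE_exp]
  have h2 := half_exp v σ
  have h3 := half_exp v (-σ)
  have h4 : Real.exp (-(σ * v / 2) - σ * h) * ((1 + Real.exp σ) / 2) ^ v ≤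
      Real.exp (σ ^ 2 * v / 8 - σ * h) := by
    rw [sub_eq_add_neg, Real.exp_add, sub_eq_add_neg, Real.exp_add, mul_right_comm]
    exact mul_le_mul_of_nonneg_right h2 (Real.exp_pos _).le
  have h5 : Real.exp (-(-σ * v / 2) - σ * h) * ((1 + Real.exp (-σ)) / 2) ^ v ≤
      Real.exp (σ ^ 2 * v / 8 - σ * h) := by
    rw [sub_eq_add_neg, Real.exp_add, sub_eq_add_neg, Real.exp_add, mul_right_comm]
    rw [neg_sq] at h3
    exact mul_le_mul_of_nonneg_right h3 (Real.exp_pos _).le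
  linarith

/-- the event that some trajectory moves by more than `H` levels between `s` and `t` -/
def Ev (L s t : ℕ) (H : ℝ) : Set ℤ := {x : ℤ | ∃ j : ℕ, j < L ∧
    H < |(oc t (x + j) : ℝ) - oc s (x + j) - ((t : ℝ) - s) / 2|}

theorem ind_le {A B : Set ℤ} (h : A ⊆ B) (x : ℤ) :
    Set.indicator A (1 : ℤ → ℝ) x ≤ Set.indicator B 1 x :=
  Set.indicator_le_indicator_of_subset h (fun _ => zero_le_one) x

/-- one stage -/
theorem stage (L t' v : ℕ) (h σ : ℝ) (hσ : 0 ≤ σ) :
    EE (t' + v) (Set.indicator (Ev L t' (t' + v) h) 1) ≤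
      EE t' (fun x => ((VV L t' x).card : ℝ)) * (2 * Real.exp (σ ^ 2 * v / 8 - σ * h)) := by
  classical
  rw [EE_split, mul_comm, ← EE_mul]
  refine EE_mono t' (fun x => ?_)
  have h1 : ∀ x' : ℤ, Set.indicator (Ev L t' (t' + v) h) (1 : ℤ → ℝ) (2 ^ t' * x' + x) ≤
      ∑ z ∈ VV L t' x, (if h < |(oc v (3 ^ z.1 * x' + z.2) : ℝ) - (v : ℝ) / 2| then (1 : ℝ) else 0) := by
    intro x'
    by_cases hx : (2 ^ t' * x' + x) ∈ Ev L t' (t' + v) h
    · rw [Set.indicator_of_mem hx]
      obtain ⟨j, hj, hj2⟩ := hx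
      have hz : nx t' x (0, (j : ℤ)) ∈ VV L t' x := by
        unfold VV
        exact Finset.mem_image_of_mem _ (Finset.mem_range.mpr hj)
      have h2 : h < |(oc v (3 ^ (nx t' x (0, (j : ℤ))).1 * x' + (nx t' x (0, (j : ℤ))).2) : ℝ) - (v : ℝ) / 2| := by
        rw [oc_add] at hj2
        have e1 : (2 ^ t' * x' + x + (j : ℤ)) = (x + j) + 2 ^ t' * x' := by ring
        rw [e1, oc_per, T_add] at hj2
        have e2 : 3 ^ (nx t' x (0, (j : ℤ))).1 * x' + (nx t' x (0, (j : ℤ))).2 =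
            T^[t'] (x + j) + 3 ^ oc t' (x + j) * x' := by
          unfold nx
          simp only [pow_zero, one_mul, zero_add]
          ring
        rw [e2]
        push_cast at hj2
        have e3 : ((oc t' (x + j) : ℝ) + (oc v (T^[t'] (x + j) + 3 ^ oc t' (x + j) * x') : ℝ)) -
            (oc t' (x + j) : ℝ) - ((t' : ℝ) + v - t') / 2 =
            (oc v (T^[t'] (x + j) + 3 ^ oc t' (x + j) * x') : ℝ) - (v : ℝ) / 2 := by ring
        rw [e3] at hj2
        exact hj2
      have h5 := Finset.single_le_sum (f := fun z : ℕ × ℤ =>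
        (if h < |(oc v (3 ^ z.1 * x' + z.2) : ℝ) - (v : ℝ) / 2| then (1 : ℝ) else 0)) (fun z _ => by
          split_ifs <;> norm_num) hz
      simp only [if_pos h2] at h5
      exact h5
    · rw [Set.indicator_of_notMem hx]
      refine Finset.sum_nonneg (fun z _ => ?_)
      split_ifs <;> norm_num
  refine (EE_mono v h1).trans ?_
  rw [EE_sum]
  have h4 : ∀ z ∈ VV L t' x, EE v (fun x' => if h < |(oc v (3 ^ z.1 * x' + z.2) : ℝ) - (v : ℝ) / 2| then (1 : ℝ) else 0) ≤
      2 * Real.exp (σ ^ 2 * v / 8 - σ * h) := by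
    intro z _
    rw [EE_oc v (fun k => if h < |(k : ℝ) - (v : ℝ) / 2| then (1 : ℝ) else 0)]
    exact tail v σ h hσ
  refine (Finset.sum_le_sum h4).trans ?_
  rw [Finset.sum_const, nsmul_eq_mul, mul_comm]

theorem EE_up (s v : ℕ) (F : ℤ → ℝ) (hF : ∀ x j : ℤ, F (x + 2 ^ s * j) = F x) : EE (s + v) F = EE s F := by
  rw [EE_split]
  congr 1
  funext x
  have : (fun x' : ℤ => F (2 ^ s * x' + x)) = fun _ => F x := by
    funext x'
    rw [add_comm, hF]
  rw [this, EE_const]

theorem Ev_per (L s t : ℕ) (hst : s ≤ t) (H : ℝ) (x j : ℤ) :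
    Set.indicator (Ev L s t H) (1 : ℤ → ℝ) (x + 2 ^ t * j) = Set.indicator (Ev L s t H) 1 x := by
  have h1 : x + 2 ^ t * j ∈ Ev L s t H ↔ x ∈ Ev L s t H := by
    unfold Ev
    simp only [Set.mem_ofPred_eq]
    obtain ⟨d, rfl⟩ := Nat.exists_eq_add_of_le hst
    have e : ∀ i : ℕ, (oc (s + d) (x + 2 ^ (s + d) * j + i)) = oc (s + d) (x + i) ∧
        oc s (x + 2 ^ (s + d) * j + i) = oc s (x + i) := by
      intro i
      constructor
      · rw [show x + 2 ^ (s + d) * j + (i : ℤ) = (x + i) + 2 ^ (s + d) * j by ring, oc_per]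
      · rw [show x + 2 ^ (s + d) * j + (i : ℤ) = (x + i) + 2 ^ s * (2 ^ d * j) by ring, oc_per]
    refine exists_congr (fun i => and_congr_right (fun _ => ?_))
    rw [(e i).1, (e i).2]
  by_cases hx : x ∈ Ev L s t H
  · rw [Set.indicator_of_mem hx, Set.indicator_of_mem (h1.mpr hx)]
    rfl
  · rw [Set.indicator_of_notMem hx, Set.indicator_of_notMem (fun h => hx (h1.mp h))]

theorem numeric (C y : ℝ) (hC : 0 < C) (hy : 0 < y) :
    (1 + 2 * C * y) * (2 * Real.exp (-(4 * y))) ≤ 2 * (1 + 2 * C) / y := by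
  have h1 : 1 + 4 * y + (4 * y) ^ 2 / 2 ≤ Real.exp (4 * y) := Real.quadratic_le_exp_of_nonneg (by positivity)
  have h2 : 0 < Real.exp (4 * y) := Real.exp_pos _
  rw [Real.exp_neg, le_div_iff₀ hy]
  have h3 : (1 + 2 * C * y) * (2 * (Real.exp (4 * y))⁻¹) * y = 2 * (y + 2 * C * y ^ 2) / Real.exp (4 * y) := by
    field_simp
  rw [h3, div_le_iff₀ h2]
  have h4 : y ≤ Real.exp (4 * y) := by nlinarith [sq_nonneg y]
  have h5 : y ^ 2 ≤ Real.exp (4 * y) := by nlinarith [sq_nonneg y]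
  nlinarith

/-- one stage, with the bound of the mean number of forms -/
theorem stage' (L : ℕ) (l C : ℝ) (hl : 1 ≤ l) (hC : 0 < C) (t' v : ℕ) (hv : v ≤ t') (ht : 1 ≤ t')
    (hM : EE t' (fun x => ((VV L t' x).card : ℝ) - 1) ≤ C * (l / √t')) :
    EE (t' + v) (Set.indicator (Ev L t' (t' + v) √(l * √((t' + v : ℕ) : ℝ))) 1) ≤
      2 * (1 + 2 * C) * (√((t' + v : ℕ) : ℝ) / l) := by
  set t : ℝ := ((t' + v : ℕ) : ℝ) with htdef
  have ht0 : (0 : ℝ) < t := by rw [htdef]; exact_mod_cast (by omega : 0 < t' + v)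
  have ht'0 : (0 : ℝ) < (t' : ℝ) := by exact_mod_cast (by omega : 0 < t')
  have hvt : (v : ℝ) ≤ t / 2 := by
    rw [htdef]
    push_cast
    have : (v : ℝ) ≤ t' := by exact_mod_cast hv
    linarith
  have htt : t ≤ 4 * t' := by
    rw [htdef]
    push_cast
    have : (v : ℝ) ≤ t' := by exact_mod_cast hv
    linarith
  set h := √(l * √t) with hh
  have hh2 : h ^ 2 = l * √t := by
    rw [hh, Real.sq_sqrt (by positivity)]
  have hst : 0 < √t := Real.sqrt_pos.mpr ht0
  have hst2 : √t ^ 2 = t := Real.sq_sqrt ht0.le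
  have hh0 : 0 ≤ h := Real.sqrt_nonneg _
  have h1 := stage L t' v h (8 * h / t) (by positivity)
  refine h1.trans ?_
  have hcard : EE t' (fun x => ((VV L t' x).card : ℝ)) ≤ 1 + C * (l / √t') := by
    have e : (fun x => ((VV L t' x).card : ℝ)) = fun x => (((VV L t' x).card : ℝ) - 1) + 1 := by
      funext x; ring
    rw [e, EE_add t' (fun x => ((VV L t' x).card : ℝ) - 1), EE_const]
    linarith
  have hsq : √t ≤ 2 * √t' := by
    rw [show (2 : ℝ) = √4 by rw [show (4 : ℝ) = 2 ^ 2 by norm_num, Real.sqrt_sq (by norm_num)],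
      ← Real.sqrt_mul (by norm_num)]
    exact Real.sqrt_le_sqrt htt
  have hst' : 0 < √(t' : ℝ) := Real.sqrt_pos.mpr ht'0
  have hcard2 : EE t' (fun x => ((VV L t' x).card : ℝ)) ≤ 1 + 2 * C * (l / √t) := by
    refine hcard.trans ?_
    have h2 : l / √t' ≤ 2 * (l / √t) := by
      rw [← mul_div_assoc, div_le_div_iff₀ hst' hst]
      nlinarith
    nlinarith
  have hexp : (8 * h / t) ^ 2 * v / 8 - 8 * h / t * h ≤ -(4 * (l / √t)) := by
    have e1 : (8 * h / t) ^ 2 * v / 8 ≤ (8 * h / t) ^ 2 * (t / 2) / 8 := by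
      have : 0 ≤ (8 * h / t) ^ 2 := sq_nonneg _
      nlinarith
    have e2 : (8 * h / t) ^ 2 * (t / 2) / 8 - 8 * h / t * h = -(4 * (h ^ 2 / t)) := by
      field_simp
      ring
    have e3 : h ^ 2 / t = l / √t := by
      rw [hh2]
      nth_rewrite 2 [← hst2]
      field_simp
    rw [e3] at e2
    linarith
  have hexp2 : 2 * Real.exp ((8 * h / t) ^ 2 * v / 8 - 8 * h / t * h) ≤ 2 * Real.exp (-(4 * (l / √t))) :=
    mul_le_mul_of_nonneg_left (Real.exp_le_exp.mpr hexp) (by norm_num)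
  have hy : 0 < l / √t := by positivity
  have h3 := numeric C (l / √t) hC hy
  have h4 : EE t' (fun x => ((VV L t' x).card : ℝ)) * (2 * Real.exp ((8 * h / t) ^ 2 * v / 8 - 8 * h / t * h)) ≤
      (1 + 2 * C * (l / √t)) * (2 * Real.exp (-(4 * (l / √t)))) :=
    mul_le_mul hcard2 hexp2 (by positivity) (by positivity)
  refine h4.trans (h3.trans (le_of_eq ?_))
  field_simp

/-- the chaining -/
theorem chain (L : ℕ) (l C : ℝ) (hl : 1 ≤ l) (hC : 0 < C) (s : ℕ) (hs : 8 ≤ s)
    (hM : ∀ t : ℕ, s ≤ t → EE t (fun x => ((VV L t x).card : ℝ) - 1) ≤ C * (l / √t)) (t : ℕ) (hst : s ≤ t) :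
    EE t (Set.indicator (Ev L s t (8 * √(l * √(t : ℝ)))) 1) ≤ 8 * (1 + 2 * C) * (√(t : ℝ) / l) := by
  induction t using Nat.strong_induction_on with
  | _ t ih =>
    have ht0 : (0 : ℝ) < (t : ℝ) := by exact_mod_cast (by omega : 0 < t)
    have hh0 : 0 ≤ √(l * √(t : ℝ)) := Real.sqrt_nonneg _
    have hq0 : 0 ≤ √(t : ℝ) / l := by positivity
    by_cases h2 : t ≤ 2 * s
    · obtain ⟨v, rfl⟩ := Nat.exists_eq_add_of_le hst
      have h3 := stage' L l C hl hC s v (by omega) (by omega) (hM s le_rfl)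
      have h4 : EE (s + v) (Set.indicator (Ev L s (s + v) (8 * √(l * √((s + v : ℕ) : ℝ)))) 1) ≤
          EE (s + v) (Set.indicator (Ev L s (s + v) √(l * √((s + v : ℕ) : ℝ))) 1) := by
        refine EE_mono _ (fun x => ind_le ?_ x)
        rintro x ⟨j, hj, hj2⟩
        exact ⟨j, hj, by linarith⟩
      refine h4.trans (h3.trans ?_)
      have : 0 ≤ (1 + 2 * C) * (√((s + v : ℕ) : ℝ) / l) := by positivity
      nlinarith
    · push Not at h2
      obtain ⟨t', v, htv, hvt, hst', ht'⟩ : ∃ t' v : ℕ, t = t' + v ∧ v ≤ t' ∧ s ≤ t' ∧ 16 * t' ≤ 9 * t := by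
        refine ⟨(t + 1) / 2, t - (t + 1) / 2, by omega, by omega, by omega, by omega⟩
      have hlt : t' < t := by omega
      have h3 := ih t' hlt hst'
      have h4 := stage' L l C hl hC t' v hvt (by omega) (hM t' hst')
      rw [← htv] at h4
      have h5 : EE t (Set.indicator (Ev L s t' (8 * √(l * √(t' : ℝ)))) 1) =
          EE t' (Set.indicator (Ev L s t' (8 * √(l * √(t' : ℝ)))) 1) := by
        conv_lhs => rw [htv]
        exact EE_up t' v _ (fun x j => Ev_per L s t' hst' _ x j)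
      have hr : √(t' : ℝ) ≤ 3 / 4 * √(t : ℝ) := by
        rw [show (3 / 4 : ℝ) = √((3 / 4) ^ 2) by rw [Real.sqrt_sq (by norm_num)],
          ← Real.sqrt_mul (by norm_num)]
        refine Real.sqrt_le_sqrt ?_
        have : (16 * t' : ℝ) ≤ 9 * t := by exact_mod_cast ht'
        linarith
      have hr2 : √(l * √(t' : ℝ)) ≤ 7 / 8 * √(l * √(t : ℝ)) := by
        rw [show (7 / 8 : ℝ) = √((7 / 8) ^ 2) by rw [Real.sqrt_sq (by norm_num)],
          ← Real.sqrt_mul (by norm_num)]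
        refine Real.sqrt_le_sqrt ?_
        have : 0 ≤ l * √(t : ℝ) := by positivity
        nlinarith
      have h6 : EE t (Set.indicator (Ev L s t (8 * √(l * √(t : ℝ)))) 1) ≤
          EE t (fun x => Set.indicator (Ev L s t' (8 * √(l * √(t' : ℝ)))) 1 x +
            Set.indicator (Ev L t' t √(l * √(t : ℝ))) 1 x) := by
        refine EE_mono _ (fun x => ?_)
        by_cases hx : x ∈ Ev L s t (8 * √(l * √(t : ℝ)))
        · rw [Set.indicator_of_mem hx]
          obtain ⟨j, hj, hj2⟩ := hx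
          by_cases hA : x ∈ Ev L s t' (8 * √(l * √(t' : ℝ)))
          · rw [Set.indicator_of_mem hA]
            have : 0 ≤ Set.indicator (Ev L t' t √(l * √(t : ℝ))) (1 : ℤ → ℝ) x :=
              Set.indicator_nonneg (fun _ _ => zero_le_one) x
            show (1 : ℝ) ≤ 1 + _
            linarith
          · have hB : x ∈ Ev L t' t √(l * √(t : ℝ)) := by
              refine ⟨j, hj, ?_⟩
              by_contra hcon
              push Not at hcon
              have hA2 : |(oc t' (x + j) : ℝ) - oc s (x + j) - ((t' : ℝ) - s) / 2| ≤ 8 * √(l * √(t' : ℝ)) := by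
                by_contra h9
                push Not at h9
                exact hA ⟨j, hj, h9⟩
              have e : (oc t (x + j) : ℝ) - oc s (x + j) - ((t : ℝ) - s) / 2 =
                  ((oc t' (x + j) : ℝ) - oc s (x + j) - ((t' : ℝ) - s) / 2) +
                  ((oc t (x + j) : ℝ) - oc t' (x + j) - ((t : ℝ) - t') / 2) := by ring
              rw [e] at hj2
              have h7 := abs_add_le ((oc t' (x + j) : ℝ) - oc s (x + j) - ((t' : ℝ) - s) / 2)
                ((oc t (x + j) : ℝ) - oc t' (x + j) - ((t : ℝ) - t') / 2)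
              linarith
            rw [Set.indicator_of_mem hB]
            have : 0 ≤ Set.indicator (Ev L s t' (8 * √(l * √(t' : ℝ)))) (1 : ℤ → ℝ) x :=
              Set.indicator_nonneg (fun _ _ => zero_le_one) x
            show (1 : ℝ) ≤ _ + 1
            linarith
        · rw [Set.indicator_of_notMem hx]
          exact add_nonneg (Set.indicator_nonneg (fun _ _ => zero_le_one) x)
            (Set.indicator_nonneg (fun _ _ => zero_le_one) x)
      rw [EE_add t (Set.indicator (Ev L s t' (8 * √(l * √(t' : ℝ)))) 1), h5] at h6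
      have hl0 : 0 < l := by linarith
      have h8 : √(t' : ℝ) / l ≤ 3 / 4 * (√(t : ℝ) / l) := by
        rw [← mul_div_assoc]
        exact div_le_div_of_nonneg_right hr hl0.le
      have h9 : 8 * (1 + 2 * C) * (√(t' : ℝ) / l) ≤ 8 * (1 + 2 * C) * (3 / 4 * (√(t : ℝ) / l)) :=
        mul_le_mul_of_nonneg_left h8 (by positivity)
      have h10 : 8 * (1 + 2 * C) * (3 / 4 * (√(t : ℝ) / l)) + 2 * (1 + 2 * C) * (√(t : ℝ) / l) =
          8 * (1 + 2 * C) * (√(t : ℝ) / l) := by ring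
      linarith

theorem walk (h : S_Mean) : S_Walk := by
  intro γ hγ ε hε
  obtain ⟨C, hC, hM⟩ := h γ hγ ε hε
  set d : ℝ := min ((ε / 8) ^ 2) (ε / (8 * (1 + 2 * C))) with hd
  have hd0 : 0 < d := by
    rw [hd]
    exact lt_min (by positivity) (by positivity)
  have hd1 : d ≤ (ε / 8) ^ 2 := min_le_left _ _
  have hd2 : d ≤ ε / (8 * (1 + 2 * C)) := min_le_right _ _
  refine ⟨d ^ 2, by positivity, 3, fun L hL s t hs hst ht => ?_⟩
  set l := Real.log L with hl
  have hl1 : 1 ≤ l := by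
    rw [hl, Real.le_log_iff_exp_le (by exact_mod_cast (by omega : 0 < L))]
    have h3 : (3 : ℝ) ≤ L := by exact_mod_cast hL
    have := Real.exp_one_lt_d9
    linarith
  have hs8 : 8 ≤ s := by
    have h1 : (41 : ℝ) < γ + ε := by linarith [hγ.1]
    have h2 : (41 : ℝ) ≤ s := by nlinarith
    have h3 : 41 ≤ s := by exact_mod_cast h2
    omega
  have h1 := chain L l C hl1 hC s hs8 (fun t' ht' => hM L t' (by omega) (by
    have : (s : ℝ) ≤ t' := by exact_mod_cast ht'
    linarith)) t hst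
  have hl0 : 0 < l := by linarith
  have hsq : √(t : ℝ) ≤ d * l := by
    rw [show d * l = √((d * l) ^ 2) by rw [Real.sqrt_sq (by positivity)]]
    refine Real.sqrt_le_sqrt ?_
    rw [mul_pow]
    exact ht
  have h2 : 8 * √(l * √(t : ℝ)) ≤ ε * l := by
    have h3 : √(l * √(t : ℝ)) ≤ ε / 8 * l := by
      rw [show ε / 8 * l = √((ε / 8 * l) ^ 2) by rw [Real.sqrt_sq (by positivity)]]
      refine Real.sqrt_le_sqrt ?_
      have h4 : l * √(t : ℝ) ≤ l * (d * l) := mul_le_mul_of_nonneg_left hsq hl0.le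
      have h5 : l * (d * l) = d * l ^ 2 := by ring
      have h6 : d * l ^ 2 ≤ (ε / 8) ^ 2 * l ^ 2 := mul_le_mul_of_nonneg_right hd1 (sq_nonneg _)
      rw [mul_pow]
      linarith
    linarith
  have h3 : EE t (Set.indicator (Ev L s t (ε * l)) 1) ≤ EE t (Set.indicator (Ev L s t (8 * √(l * √(t : ℝ)))) 1) := by
    refine EE_mono _ (fun x => ind_le ?_ x)
    rintro x ⟨j, hj, hj2⟩
    exact ⟨j, hj, by linarith⟩
  refine h3.trans (h1.trans ?_)
  have h4 : √(t : ℝ) / l ≤ d := by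
    rw [div_le_iff₀ hl0]
    exact hsq
  have h5 : 8 * (1 + 2 * C) * (√(t : ℝ) / l) ≤ 8 * (1 + 2 * C) * d := mul_le_mul_of_nonneg_left h4 (by positivity)
  have h6 : 8 * (1 + 2 * C) * d ≤ ε := by
    rw [le_div_iff₀ (by positivity)] at hd2
    linarith
  exact h5.trans h6

end Pool.Agent.Q182.BT
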